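import Mathlib
import Pool.Agent.H532.SR.MontQ

/-!
# Montgomery's conjecture in the random sieve model

In the model of Banks, Ford and Tao (Large prime gaps and probabilistic models, Invent. Math. 2023)
the primes are replaced by the random set `R` of the integers `n` which are outside the random
residue class `a_p` modulo `p` for all primes `p ≤ z(n)`, `∏_{p ≤ z(n)} (1 - 1/p) ≈ 1 / log n`.

A residue class `b` modulo `q` is reduced (for `R`) if `b` is not in the removed class modulo any
prime factor of `q`; this takes the place of the condition that `b` is coprime to `q`. Let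
`ψ_R(x, y; q, b)` be the sum of `log n` over the `n ∈ R`, `x < n ≤ x + y`, `n ≡ b mod q`.

We prove the analogue of Montgomery's conjecture for `R`, almost surely, for all moduli `q ≤ x`
(not only `q ≤ x ^ (1/2)`), and more generally its analogue for short intervals
`|ψ_R(x, y; q, b) - y / φ(q)| ≤ X ^ ε (1 + y / q) ^ (1/2)` for all `x + y ≤ X`, `q ≤ X`.

The proof bounds all moments of the number of the survivors of the sieve in progressions by a
recursion over the primes and the moduli.
-/

open Finset MeasureTheory ProbabilityTheory Filter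
open scoped ENNReal Topology

namespace Pool.Agent.Results.MP_9cfc0a_nt.MontgomeryRandomSieve

/-- `A p`, `p` prime, are independent random variables and `A p` is uniformly distributed on
`{0, …, p - 1}`. -/
structure RandomClasses {Ω : Type} [MeasurableSpace Ω] (μ : Measure Ω) (A : ℕ → Ω → ℕ) :
    Prop where
  meas : ∀ p, Measurable (A p)
  indep : iIndepFun (fun p : Nat.Primes => A p) μ
  unif : ∀ p : ℕ, p.Prime → ∀ r < p, μ {ω | A p ω = r} = (p : ℝ≥0∞)⁻¹

/-- `V z = ∏_{p ≤ z} (1 - 1 / p)`. -/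
noncomputable def V (z : ℕ) : ℝ := ∏ p ∈ (range (z + 1)).filter Nat.Prime, (1 - 1 / (p : ℝ))

/-- The integers `n` are sieved by the primes up to `z n`; this leaves the density
`1 / log n`, up to the relative error `O(n ^ (-1/2))`. -/
structure SievingLimit (z : ℕ → ℕ) : Prop where
  mono : Monotone z
  rate : ∃ K : ℝ, ∀ᶠ n : ℕ in atTop, |V (z n) * Real.log n - 1| ≤ K / Real.sqrt n

/-- The sieving limit of Banks, Ford and Tao: the largest `z` with `V z ≥ 1 / log n`. -/
noncomputable def banksFordTao (n : ℕ) : ℕ := sSup {z : ℕ | 1 / Real.log n ≤ V z}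

/-- The random sieve: the integers `n` which are not congruent to `a p` modulo `p`, for all primes
`p ≤ z n`. -/
def sieved (z : ℕ → ℕ) (a : ℕ → ℕ) : Set ℕ :=
  {n | ∀ p : ℕ, p.Prime → p ≤ z n → ¬ n ≡ a p [MOD p]}

/-- The class of `b` modulo `q` is reduced: `b` is not congruent to `a p` modulo `p` for the prime
factors `p` of `q`. -/
def Reduced (a : ℕ → ℕ) (q b : ℕ) : Prop := ∀ p : ℕ, p.Prime → p ∣ q → ¬ b ≡ a p [MOD p]

open Classical in
/-- `ψ_R(x, y; q, b)`: the sum of `log n` over the `n ∈ R` with `x < n ≤ x + y`, `n ≡ b mod q`. -/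
noncomputable def psi (R : Set ℕ) (x y q b : ℕ) : ℝ :=
  ∑ n ∈ (Ioc x (x + y)).filter (fun n => n ≡ b [MOD q] ∧ n ∈ R), Real.log n

/-- **Montgomery's conjecture in the random sieve model.** -/
theorem result :
    -- the model exists, the sieving limit of Banks, Ford and Tao is covered
    (∃ μ : Measure (ℕ → ℕ), IsProbabilityMeasure μ ∧ RandomClasses μ (fun p ω => ω p)) ∧
    SievingLimit banksFordTao ∧
    ∀ (Ω : Type) [MeasurableSpace Ω] (μ : Measure Ω) [IsProbabilityMeasure μ]
      (A : ℕ → Ω → ℕ), RandomClasses μ A → ∀ z : ℕ → ℕ, SievingLimit z → ∀ᵐ ω ∂μ,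
      -- all intervals and all moduli up to `X`
      (∀ ε : ℝ, 0 < ε → ∀ᶠ X : ℕ in atTop, ∀ x y q b : ℕ, x + y ≤ X → 1 ≤ q → q ≤ X →
        Reduced (fun p => A p ω) q b →
          |psi (sieved z (fun p => A p ω)) x y q b - y / Nat.totient q| ≤
            (X : ℝ) ^ ε * Real.sqrt (1 + y / q)) ∧
      -- the form of Montgomery's conjecture, for all moduli up to `x`
      (∀ ε : ℝ, 0 < ε → ∃ C : ℝ, ∀ x q b : ℕ, 2 ≤ x → 1 ≤ q → q ≤ x →
        Reduced (fun p => A p ω) q b →
          |psi (sieved z (fun p => A p ω)) 0 x q b - x / Nat.totient q| ≤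
            C * (x : ℝ) ^ (1 / 2 + ε) / (q : ℝ) ^ (1 / 2 : ℝ)) := by
  refine ⟨?_, ⟨Pool.Agent.H532.SR.rt_zBFT.mono, Pool.Agent.H532.SR.rt_zBFT.rate⟩, ?_⟩
  · obtain ⟨μ, h1, h2⟩ := Pool.Agent.H532.RM.exists_randomClasses
    exact ⟨μ, h1, ⟨h2.meas, h2.indep, h2.unif⟩⟩
  · intro Ω _ μ _ A hA z hz
    have hA' : Pool.Agent.H532.RM.RandomClasses μ A := ⟨hA.meas, hA.indep, hA.unif⟩
    have hz' : Pool.Agent.H532.SR.Rt z := ⟨hz.mono, hz.rate⟩
    filter_upwards [Pool.Agent.H532.SR.mont_all hA' hz'] with ω hω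
    refine ⟨fun ε hε => ?_, fun ε hε => Pool.Agent.H532.SR.mont_Q1 hω hε⟩
    filter_upwards [hω ε hε] with X hX x y q b h1 h2 h3 h4
    exact hX x y q b (by omega) (by omega) (by omega) h4

end Pool.Agent.Results.MP_9cfc0a_nt.MontgomeryRandomSieve
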