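import Pool.Agent.H414.LT.Che
import Pool.Agent.H414.GE.Lsa
import Pool.Agent.H414.GE.Ls
import Pool.Agent.H414.GE.Ch
import Pool.Agent.H414.GE.Exp
import Pool.Agent.H414.GE.Cls
import Pool.Agent.H414.GE.Sel
import Pool.Agent.H414.GE.Gb
import Pool.Agent.H414.GE.Gc
import Pool.Agent.H414.GE.Gg
import Pool.Agent.H414.GE.T3

/-!
# The generalized Riemann hypothesis, with arbitrary twists, gives no saving in the modulus, even on average

For any bounded twists `c j : ℕ → ℂ` and any function `l` with `k / 3 ≤ l k ≤ k / 2 + 1` there is a set `P` of primes of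
relative density one, which is as close to the primes as square root cancellation in all sums
twisted by all Dirichlet characters of all moduli can tell (`Close`), but for which the mean, over the primes `q` between
`2 ^ (l k)` and `2 ^ (l k + 1)`, of the largest `|π_P(y; q, a) - π_P(y) / φ(q)|`, `y ≤ x = 2 ^ (k + 1)`, is at least
`c₀ √x / (log x) ^ 3`, for all large `k`. Montgomery's conjecture gives `x ^ (1 / 2 + ε) q ^ (- 1 / 2)` for the primes. By
orthogonality of characters, `Close` gives the bound `C √x log (q x)` for each `q` and `a` (for the differences from the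
primes): up to powers of `log x`, this is the true order for `P`, on average over the `q` of size `x ^ θ` for all `1/3 ≤ θ ≤ 1/2`.
So no saving in `q`, not even for most moduli `q`, follows from the bounds which the generalized Riemann hypothesis
gives for the sums of characters, even if such bounds were known with countably many arbitrary twists.

Proof. For the block `(2 ^ k, 2 ^ (k + 1)]` choose random residue classes `a_q` for the primes `q` between `2 ^ (l k)` and
`2 ^ (l k + 1)`, and remove from the primes `p` of the block a random set with the probabilities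
`2 ^ (l k - k / 2) hit(p) / (8 k + 40)`, `hit(p)` being the number of the `q` with `p ≡ a_q (mod q)`. By the large sieve inequality the
variance of each of the sums is at most of the order of `2 ^ k`, and exponential moments show that some choice has the
required properties.
-/

set_option autoImplicit false

namespace Pool.Agent.Results.MP_9cfc0a_nt.NoSavingFromGRH

open Finset
open Pool.Agent.H414.LT (blk)
open Pool.Agent.H414.GE

/-- Relative density one sets of primes with square root cancellation for all characters with arbitrary twists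
and error terms without saving in the modulus, on average over the prime moduli `q` near `2 ^ (l k)`. -/
theorem result : ∀ l : ℕ → ℕ, (∀ k, k ≤ 3 * l k ∧ 2 * l k ≤ k + 2) →
    ∀ c : ℕ → ℕ → ℂ, (∀ j n, ‖c j n‖ ≤ 1) →
    ∃ (P : Set ℕ) (w : ℕ → ℝ) (c₀ : ℝ) (k₁ : ℕ), 0 < c₀ ∧ (∀ p ∈ P, p.Prime) ∧
      (∀ k : ℕ, 1 - 1 / ((k : ℝ) + 1) ≤ w k ∧ w k ≤ 1) ∧ Close P w c ∧
      ∀ k, k₁ ≤ k → ∃ (a y : ℕ → ℕ), (∀ q ∈ blk (l k), (a q).Coprime q ∧ y q ≤ 2 ^ (k + 1)) ∧
        c₀ * 2 ^ (l k) * (2 : ℝ) ^ ((k : ℝ) / 2) / k ^ 3 ≤
          ∑ q ∈ blk (l k), |dev P (y q) q (a q)| := by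
  have hCHE := Pool.Agent.H414.LT.che
  have hCH : S_CH := ch hCHE
  have hEXP : S_EXP := exq
  exact t3 (gg hCH (gc hCH (gb hCHE hCH (cls hEXP (ls lsa) hCH) (sele hEXP))))

end Pool.Agent.Results.MP_9cfc0a_nt.NoSavingFromGRH
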