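import Pool.Agent.H564.MG.Final

/-!
# How many primes does Montgomery's bound need?

For real weights `w` let `ψ_w(x; q, a) = ∑_{n ≤ x, n ≡ a (q)} w(n) Λ(n)` (`psi w x q a`), and for `y ≥ 0` let `Mont w y` be the
statement: for every `ε > 0`, `|ψ_w(x; q, a) - x/φ(q)| ≤ C_ε x^(1/2+y+ε) q^(-1/2)` for all `x ≥ x₀(ε)`, all `q ≤ √x` and all
`a` prime to `q`. Montgomery's conjecture Q1 is `Mont 1 0` (part (D)). `w` uses the prime powers `n` with `w(n) ≠ 0`.

* (A) For ALL real weights `w` and `0 ≤ y < 1/2`: `Mont w y` implies that at least `N^(1-2y-ε)` prime powers `n ≤ N` are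
  used, for all `ε > 0` and all large `N`. In particular Montgomery's bound (`y = 0`) is false for all weights on a set of
  `N^(1-c)` prime powers, `c > 0`.
* (B) Let `0 ≤ κ < 1` and let the integers be chosen independently, `n` with a probability `δ_n = n^(-κ+o(1))`; let
  `w(n) = 1/δ_n` for the chosen ones and `0` for the others. Almost surely (`Sample w κ`) at most `N^(1-κ+ε)` prime powers
  `n ≤ N` are used; `Mont w y` is equivalent to `Mont 1 y` for all `y` with `κ ≤ 2y` and `κ ≤ 1/4 + y`; `Mont w y` is false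
  for all `0 ≤ y < κ/2`. For `κ ≤ 1/2` these are all `y ≥ 0`: `Mont w y` holds if and only if `Mont 1 y` holds and
  `y ≥ κ/2` (part (B')).
* (C) There are such weights `w ≥ 0` for every `κ`. So if the primes satisfy the bound with `0 ≤ y ≤ 1/4`, the smallest sets of
  prime powers with this property (with weights) have `N^(1-2y+o(1))` elements up to `N`.

Proof. (A): the circle is dissected into the arcs around the fractions `a/q`, `q ≤ √N`. The square mean over such an arc is
bounded by the mean of the squares of the sums over the short segments `(t, t + q M]`, `M` about `√N / 8`, twisted by `a/q`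
(a form of Gallagher's lemma); summed over `a` prime to `q` these are the sums over the classes modulo `q`, and the main term
contributes only a Ramanujan sum. So `∑ |w(n) Λ(n)|²` over `N/2 < n ≤ N` is at most `N^(1+2y+ε)`, and Cauchy's inequality
gives the result. (B): exponential moments for all classes and the lemma of Borel and Cantelli.
-/

set_option autoImplicit false

namespace Pool.Agent.Results.MP_9cfc0a_nt.SizeOfSets

open MeasureTheory Filter Topology Classical ProbabilityTheory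
open Pool.Agent.H564.MG

/-- **How many primes does Montgomery's bound need?** -/
theorem result :
    -- (A) optimality, for all weights
    (∀ (w : ℕ → ℝ) (y : ℝ), 0 ≤ y → y < 1 / 2 → Mont w y → ∀ ε : ℝ, 0 < ε →
      ∀ᶠ N : ℕ in atTop, (N : ℝ) ^ (1 - 2 * y - ε) ≤ (used w N : ℝ)) ∧
    -- (B) random samples
    (∀ (Ω : Type) [MeasurableSpace Ω] (μ : Measure Ω) [IsProbabilityMeasure μ]
      (A : ℕ → Set Ω) (δ : ℕ → ℝ) (κ : ℝ), (∀ n, MeasurableSet (A n)) → iIndepSet A μ →
      (∀ n, 0 < δ n) → (∀ n, μ (A n) = ENNReal.ofReal (δ n)) → 0 ≤ κ → κ < 1 →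
      (∀ ε : ℝ, 0 < ε → ∀ᶠ n : ℕ in atTop,
        (n : ℝ) ^ (-κ - ε) ≤ δ n ∧ δ n ≤ (n : ℝ) ^ (-κ + ε)) →
      ∀ᵐ ω ∂μ, Sample (fun n => if ω ∈ A n then 1 / δ n else 0) κ) ∧
    -- (B') the case `κ ≤ 1/2`
    (∀ (w : ℕ → ℝ) (κ : ℝ), κ ≤ 1 / 2 → Sample w κ → ∀ y : ℝ, 0 ≤ y →
      (Mont w y ↔ Mont (fun _ => 1) y ∧ κ ≤ 2 * y)) ∧
    -- (C) existence
    (∀ κ : ℝ, 0 ≤ κ → κ < 1 → ∃ w : ℕ → ℝ, (∀ n, 0 ≤ w n) ∧ Sample w κ) ∧
    -- (D) the statement of Montgomery's conjecture
    (Mont (fun _ => 1) 0 ↔ ∀ ε : ℝ, 0 < ε → ∃ C : ℝ, ∃ x₀ : ℝ, ∀ x : ℝ, x₀ ≤ x →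
      ∀ q a : ℕ, 1 ≤ q → (q : ℝ) ≤ Real.sqrt x → Nat.Coprime a q →
        |(∑ n ∈ (Finset.Icc 1 ⌊x⌋₊).filter (fun n => n % q = a % q),
              ArithmeticFunction.vonMangoldt n) - x / (Nat.totient q : ℝ)|
          ≤ C * x ^ ((1 : ℝ) / 2 + ε) / Real.sqrt (q : ℝ)) := by
  refine ⟨?_, ?_, ?_, fun κ hκ0 hκ1 => exists_sample hκ0 hκ1, ?_⟩
  · intro w y hy0 hy h ε hε
    exact size_lower hy0 hy h hε
  · intro Ω _ μ _ A δ κ hA hind hδ hμ hκ0 hκ1 hd
    exact almost_surely hA hind hδ hμ hκ0 hκ1 hd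
  · rintro w κ hκ ⟨_, h2, h3⟩ y hy
    constructor
    · intro h
      have h4 : κ ≤ 2 * y := by
        by_contra hlt
        push Not at hlt
        exact h3 y hy hlt h
      exact ⟨(h2 y hy h4 (by linarith)).1 h, h4⟩
    · rintro ⟨h, h4⟩
      exact (h2 y hy h4 (by linarith)).2 h
  · unfold Mont psi
    simp only [one_mul, add_zero]

end Pool.Agent.Results.MP_9cfc0a_nt.SizeOfSets
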